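import Pool.Agent.H.MP_456268_al.D

set_option autoImplicit false

namespace Pool.Agent.Results.MP_456268_al.Yes

abbrev GClass := ∀ (G : Type) [Group G], Prop

def IsFormation (X : GClass) : Prop :=
  X PUnit ∧
  (∀ (G : Type) [Group G], X G → Finite G) ∧
  (∀ (G H : Type) [Group G] [Group H] (f : G →* H), Function.Surjective f → X G → X H) ∧
  (∀ (G : Type) [Group G] [Finite G] (N₁ N₂ : Subgroup G) [N₁.Normal] [N₂.Normal],
    X (G ⧸ N₁) → X (G ⧸ N₂) → X (G ⧸ (N₁ ⊓ N₂)))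

def IsSaturated (X : GClass) : Prop :=
  ∀ (G : Type) [Group G] [Finite G], X (G ⧸ frattini G) → X G

def residual (H : GClass) (G : Type) [Group G] : Subgroup G :=
  sInf {N | ∃ _ : N.Normal, H (G ⧸ N)}

def prod (F H : GClass) : GClass := fun G _ => Finite G ∧ F (residual H G)

def trivialClass : GClass := fun G _ => Subsingleton G

def prodList : GClass → List GClass → GClass
  | F, [] => F
  | F, H :: l => prod F (prodList H l)

def NonDecomposable (F : GClass) : Prop :=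
  IsFormation F ∧ F ≠ trivialClass ∧ ¬ ∃ A B : GClass, IsFormation A ∧ IsFormation B ∧
    A ≠ trivialClass ∧ B ≠ trivialClass ∧ F = prod A B

open Pool.Agent.H.MP_4f47f1_al Pool.Agent.H.MP_44c8f1_al Pool.Agent.H.MP_58728c_al
  Pool.Agent.H.MP_456268_al

lemma toNF {X : GClass} (h : IsFormation X) : ∃ A : NF, A.mem = X := by
  obtain ⟨hG, a, b, d⟩ := h
  have hP : Phi X := by
    refine ⟨a, b, ?_⟩
    intro G _ N1 N2 _ _ hb x1 x2
    have := phi_fin.2.2 G N1 N2 hb (a _ x1) (a _ x2)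
    exact b _ _ ((QuotientGroup.quotientMulEquivOfEq hb).trans
      QuotientGroup.quotientBot).toMonoidHom ((QuotientGroup.quotientMulEquivOfEq hb).trans
      QuotientGroup.quotientBot).surjective (d G N1 N2 x1 x2)
  exact ⟨⟨X, hP, hG⟩, rfl⟩

lemma ofPhi {X : GClass} (h : Phi X) {G : Type} [Group G] (hG : X G) : IsFormation X :=
  ⟨h.triv hG, h.1, h.2.1,
    fun _ _ _ N1 N2 _ _ x1 x2 => h.qr (QuotientGroup.mk' N1) (QuotientGroup.mk' N2)
      (QuotientGroup.mk' _) (QuotientGroup.mk'_surjective _) (QuotientGroup.mk'_surjective _)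
      (QuotientGroup.mk'_surjective _) x1 x2 (by simp [QuotientGroup.ker_mk'])⟩

lemma prodList_eq (l : List NF) : ∀ A : NF, prodList A.mem (l.map NF.mem) = (A :: l).prod.mem := by
  induction l with
  | nil => intro A; simp [prodList]
  | cons B l ih =>
    intro A
    rw [List.map_cons, prodList, ih, List.prod_cons (a := A)]
    rfl

lemma toList (l : List GClass) (h : ∀ A ∈ l, NonDecomposable A) :
    ∃ m : List NF, m.map NF.mem = l ∧ ∀ A ∈ m, Ind A := by
  induction l with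
  | nil => exact ⟨[], rfl, by simp⟩
  | cons X l ih =>
    obtain ⟨m, rfl, hm⟩ := ih fun A hA => h A (List.mem_cons_of_mem _ hA)
    obtain ⟨a, b, c⟩ := h X List.mem_cons_self
    obtain ⟨A, rfl⟩ := toNF a
    refine ⟨A :: m, rfl, fun B hB => ?_⟩
    rcases List.mem_cons.1 hB with rfl | hB
    · refine ⟨fun e => b (by rw [e]; rfl), fun U V e => ?_⟩
      by_contra hc
      push Not at hc
      exact c ⟨U.mem, V.mem, ofPhi U.ok U.ne, ofPhi V.ok V.ne, fun e => hc.1 (NF.ext e),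
        fun e => hc.2 (NF.ext e), congrArg NF.mem e⟩
    · exact hm B hB

theorem result (G₀ : Type) [Group G₀] [Finite G₀] (F : GClass)
    (hM : ∀ (X : Type) [Group X], F X →
      ∀ M : GClass, IsFormation M → IsSaturated M → M G₀ → M X)
    (F₁ : GClass) (l : List GClass) (H₁ : GClass) (m : List GClass)
    (hl : ∀ A ∈ F₁ :: l, NonDecomposable A) (hm : ∀ A ∈ H₁ :: m, NonDecomposable A)
    (h₁ : F = prodList F₁ l) (h₂ : F = prodList H₁ m) :
    F₁ :: l = H₁ :: m := by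
  obtain ⟨l', e1, a1⟩ := toList _ hl
  obtain ⟨m', e2, a2⟩ := toList _ hm
  obtain ⟨A, l', rfl⟩ := List.exists_cons_of_ne_nil (l := l') (by rintro rfl; simp at e1)
  obtain ⟨B, m', rfl⟩ := List.exists_cons_of_ne_nil (l := m') (by rintro rfl; simp at e2)
  rw [← e1, ← e2]
  rw [List.map_cons, List.cons.injEq] at e1 e2
  obtain ⟨rfl, rfl⟩ := e1
  obtain ⟨rfl, rfl⟩ := e2
  rw [prodList_eq] at h₁ h₂
  have test : ∀ Y : GClass, Phi Y → Sat Y → Y G₀ →
      ∀ (G : Type) [Group G], (A :: l').prod.mem G → Y G :=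
    fun Y p s y G _ hG => hM G (h₁ ▸ hG) Y (ofPhi p y) s y
  obtain ⟨c, hc⟩ := self_YC G₀
  have hb : Bd (A :: l').prod := ⟨⟨Nat.card G₀, Nat.card_pos, test _ (phi_YY _) (sat_YY _)
      ⟨inferInstance, fun p _ => ⟨⊥, inferInstance, IsPGroup.of_bot, fun t _ _ => by simp⟩⟩⟩,
    ⟨Nat.card G₀, Nat.card_pos, test _ (phi_PiC _) (sat_PiC _) ⟨inferInstance, fun _ _ h => h⟩,
      fun P _ p1 p2 => test _ (phi_NQ P p1) (sat_NQ P p1) ⟨inferInstance, fun f hf =>
        (Nat.card_le_card_of_surjective f hf).not_gt p2⟩⟩,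
    ⟨c, test _ (phi_YC c) (sat_YC c) hc⟩⟩
  rw [uniq _ _ (by simp) (by simp) a1 a2 hb (NF.ext (h₁.symm.trans h₂))]

end Pool.Agent.Results.MP_456268_al.Yes
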